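import Pool.Agent.MWC.Stmts

/-!
# Row SPR of block MWC (MP_23468a_al)
-/

namespace Pool.Agent.MWC.H45

open Pool.Agent.Helper14_MV Pool.Agent.Helper2_MV Pool.Agent.MVO Pool.Agent.MWL
open Pool.Agent.MWC

theorem spr (h1 : ShfStmt) (h2 : BmpStmt) : SprStmt := by
  intro r k i x y C D hsup hik a b c d ha hb hc hd f hf hfi
  obtain ⟨g, hg, hgf⟩ := h2.1 k k f hf
  have hgi : rep g i = i := by rw [hgf i hik, hfi]
  have hps : ∀ v : ℕ → ℕ, ∀ z : List ℕ, shp r k v = z →
      psl r k k g (rep z) = shp r k (psh k f v) := by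
    intro v z hz
    have e1 : pss k g (rep z) = psh k f (rep z) := by
      funext j
      exact h2.2.2 k g f (rep z) j hgf
    have e2 := (h1 r k v).2.2.2.2.2.1 k f hf
    unfold psl
    rw [e1, e2, hz]
  have hle : ∀ (v w : ℕ → ℕ) (z : List ℕ), shp r k v = z → (∀ j ≤ k, psh k f v j ≤ w j) →
      les k (psl r k k g (rep z)) (shp r k w) = true := by
    intro v w z hz hvw
    rw [hps v z hz]
    exact (h1 r k (psh k f v)).2.2.2.1 w hvw
  unfold sup at hsup
  have h3 := List.all_eq_true.1 hsup g hg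
  have hbe : Nat.beq (rep g i) i = true := by rw [hgi]; exact Nat.beq_refl i
  rw [hbe] at h3
  have h4 : C.all (fun c => D.all (fun d =>
      !(les k (psl r k k g (rep x)) c && les k (psl r k k g (rep y)) d) &&
      !(les k (psl r k k g (rep y)) c && les k (psl r k k g (rep x)) d))) = true := h3
  have h5 := List.all_eq_true.1 (List.all_eq_true.1 h4 _ hc) _ hd
  rw [Bool.and_eq_true] at h5
  obtain ⟨h6, h7⟩ := h5
  constructor
  · rintro ⟨h8, h9⟩
    rw [hle a c x ha h8, hle b d y hb h9] at h6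
    exact absurd h6 (by decide)
  · rintro ⟨h8, h9⟩
    rw [hle b c y hb h8, hle a d x ha h9] at h7
    exact absurd h7 (by decide)

end Pool.Agent.MWC.H45
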